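import Pool.Agent.Lib.MP_2163b8_an.Skeleton

open Set Topology

namespace Pool.Agent.Lib.MP_2163b8_an

universe u v w j

variable {𝕜 : Type w} {X : Type u} [RCLike 𝕜] [NormedAddCommGroup X] [NormedSpace 𝕜 X]

/-- The index set of the enlarged skeleton. -/
inductive ExtIndex (Γ : Type v) (J : Type j) : Type (max v j)
  | base (s : Γ) : ExtIndex Γ J
  | extra (j : J) : ExtIndex Γ J

section Order

variable {Γ : Type v} [PartialOrder Γ] {J : Type j}

/-- The order relation of the enlarged skeleton. -/
def extLE (P : Γ → X →L[𝕜] X) (f : J → StrongDual 𝕜 X) (v : J → X) :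
    ExtIndex Γ J → ExtIndex Γ J → Prop
  | .base s, .base t => s ≤ t
  | .extra j, .base t => P t (v j) = v j ∧ (f j).comp (P t) = f j
  | .extra j, .extra k => j = k
  | .base _, .extra _ => False

theorem extLE_trans {P : Γ → X →L[𝕜] X} (hP : IsProjectionalSkeleton P)
    (f : J → StrongDual 𝕜 X) (v : J → X) (a b c : ExtIndex Γ J)
    (h1 : extLE P f v a b) (h2 : extLE P f v b c) : extLE P f v a c := by
  cases a <;> cases b <;> cases c <;> simp only [extLE] at *
  · exact h1.trans h2
  · exact ⟨hP.fix_mono h1.1 h2, hP.comp_mono h1.2 h2⟩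
  · subst h1; exact h2
  · exact h1.trans h2

theorem extLE_antisymm {P : Γ → X →L[𝕜] X} 
    (f : J → StrongDual 𝕜 X) (v : J → X) (a b : ExtIndex Γ J)
    (h1 : extLE P f v a b) (h2 : extLE P f v b a) : a = b := by
  cases a <;> cases b <;> simp only [extLE] at *
  · rw [le_antisymm h1 h2]
  · rw [h1]

/-- The order of the enlarged skeleton. -/
@[instance_reducible]
def extOrder {P : Γ → X →L[𝕜] X} (hP : IsProjectionalSkeleton P)
    (f : J → StrongDual 𝕜 X) (v : J → X) : PartialOrder (ExtIndex Γ J) where
  le := extLE P f v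
  le_refl := by intro a; cases a <;> simp [extLE]
  le_trans := extLE_trans hP f v
  le_antisymm := extLE_antisymm f v

/-- The rank-one projections `x ↦ f(x) v`. -/
def rankOne (f : StrongDual 𝕜 X) (v : X) : X →L[𝕜] X := f.smulRight v

@[simp] theorem rankOne_apply (f : StrongDual 𝕜 X) (v x : X) : rankOne f v x = f x • v := rfl

/-- The enlarged skeleton. -/
def extSkel (P : Γ → X →L[𝕜] X) (f : J → StrongDual 𝕜 X) (v : J → X) :
    ExtIndex Γ J → X →L[𝕜] X
  | .base s => P s
  | .extra j => rankOne (f j) (v j)

theorem ext_isSkeleton {P : Γ → X →L[𝕜] X} (hP : IsProjectionalSkeleton P)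
    (f : J → StrongDual 𝕜 X) (v : J → X) (hfv : ∀ j, f j (v j) = 1)
    (hf : ∀ j, f j ∈ inducedSubspace P) :
    @IsProjectionalSkeleton 𝕜 X (ExtIndex Γ J) _ _ _ (extOrder hP f v) (extSkel P f v) := by
  let _ := extOrder hP f v
  have hle : ∀ a b : ExtIndex Γ J, a ≤ b ↔ extLE P f v a b := fun a b => Iff.rfl
  have hup : ∀ a : ExtIndex Γ J, ∃ s : Γ, a ≤ .base s := by
    intro a
    cases a with
    | base s => exact ⟨s, le_refl _⟩
    | extra j =>
      obtain ⟨s, hs⟩ := hP.exists_fix (v j)
      obtain ⟨t, ht⟩ := hP.mem_induced.1 (hf j)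
      obtain ⟨r, hsr, htr⟩ := hP.directed s t
      exact ⟨r, hP.fix_mono hs hsr, hP.comp_mono ht htr⟩
  refine ⟨?_, ?_, ?_, ?_, ?_, ?_, ?_⟩
  · intro a b
    obtain ⟨s, hs⟩ := hup a
    obtain ⟨t, ht⟩ := hup b
    obtain ⟨r, hsr, htr⟩ := hP.directed s t
    exact ⟨.base r, hs.trans hsr, ht.trans htr⟩
  · intro a x
    cases a with
    | base s => exact hP.proj s x
    | extra j => simp [extSkel, hfv]
  · intro a
    cases a with
    | base s => exact hP.separable s
    | extra j =>
      have h1 : TopologicalSpace.IsSeparable (range fun c : 𝕜 => c • v j) :=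
        TopologicalSpace.isSeparable_range (by fun_prop)
      refine h1.mono ?_
      rintro _ ⟨x, rfl⟩
      exact ⟨f j x, rfl⟩
  · intro a b hab x
    cases a with
    | base s =>
      cases b with
      | base t => exact hP.left_comp s t hab x
      | extra k => exact absurd hab (by simp [hle, extLE])
    | extra j =>
      cases b with
      | base t =>
        have h2 : (f j).comp (P t) = f j := hab.2
        simp only [extSkel, rankOne_apply]
        rw [← ContinuousLinearMap.comp_apply, h2]
      | extra k =>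
        have : j = k := hab
        subst this
        simp [extSkel, hfv]
  · intro a b hab x
    cases a with
    | base s =>
      cases b with
      | base t => exact hP.right_comp s t hab x
      | extra k => exact absurd hab (by simp [hle, extLE])
    | extra j =>
      cases b with
      | base t =>
        have h1 : P t (v j) = v j := hab.1
        simp only [extSkel, rankOne_apply, map_smul, h1]
      | extra k =>
        have : j = k := hab
        subst this
        simp [extSkel, hfv]
  · intro u hu
    by_cases hb : ∃ n s, u n = .base s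
    · obtain ⟨n, s, hn⟩ := hb
      have h1 : ∀ m, ∃ t, u (n + m) = .base t := by
        intro m
        have h2 : u n ≤ u (n + m) := hu (Nat.le_add_right _ _)
        rw [hn] at h2
        cases h3 : u (n + m) with
        | base t => exact ⟨t, rfl⟩
        | extra k => rw [h3] at h2; exact absurd h2 (by simp [hle, extLE])
      choose t ht using h1
      have htm : Monotone t := by
        intro a b hab
        have h2 : u (n + a) ≤ u (n + b) := hu (by omega)
        rw [ht, ht] at h2
        exact h2
      obtain ⟨r, hr1, hr2⟩ := hP.sup t htm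
      refine ⟨.base r, ⟨?_, ?_⟩, ?_⟩
      · rintro _ ⟨m, rfl⟩
        have h2 : u m ≤ u (n + m) := hu (by omega)
        refine h2.trans ?_
        rw [ht]
        exact hr1.1 ⟨m, rfl⟩
      · intro c hc
        have h3 : ∀ m, u m ≤ c := fun m => hc ⟨m, rfl⟩
        cases c with
        | base c =>
          refine hr1.2 ?_
          rintro _ ⟨m, rfl⟩
          have h4 := h3 (n + m)
          rw [ht] at h4
          exact h4
        | extra k =>
          have h4 := h3 (n + 0)
          rw [ht] at h4
          exact absurd h4 (by simp [hle, extLE])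
      · have h5 : ∀ a b : ExtIndex Γ J, a ≤ b →
            range (extSkel P f v a) ⊆ range (extSkel P f v b) := by
          intro a b hab
          rintro _ ⟨x, rfl⟩
          cases a with
          | base s =>
            cases b with
            | base t => exact ⟨P s x, hP.right_comp s t hab x⟩
            | extra k => exact absurd hab (by simp [hle, extLE])
          | extra j =>
            cases b with
            | base t =>
              refine ⟨f j x • v j, ?_⟩
              have h1 : P t (v j) = v j := hab.1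
              simp only [extSkel, rankOne_apply, map_smul, h1]
            | extra k =>
              have : j = k := hab
              subst this
              exact ⟨x, rfl⟩
        have h6 : (⋃ m, range (extSkel P f v (u m))) = ⋃ m, range (P (t m)) := by
          apply Subset.antisymm
          · apply iUnion_subset
            intro m
            refine (h5 _ _ (hu (show m ≤ n + m by omega))).trans ?_
            rw [ht]
            exact subset_iUnion (fun m => range (P (t m))) m
          · apply iUnion_subset
            intro m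
            refine Subset.trans ?_ (subset_iUnion (fun m => range (extSkel P f v (u m))) (n + m))
            rw [ht]
            exact Subset.rfl
        rw [h6, ← hr2]
        rfl
    · push Not at hb
      have h1 : ∃ j, u 0 = .extra j := by
        cases h3 : u 0 with
        | base t => exact absurd h3 (hb 0 t)
        | extra k => exact ⟨k, rfl⟩
      obtain ⟨j, hj⟩ := h1
      have h2 : ∀ m, u m = .extra j := by
        intro m
        have h4 : u 0 ≤ u m := hu (Nat.zero_le _)
        cases h3 : u m with
        | base t => exact absurd h3 (hb m t)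
        | extra k =>
          rw [h3, hj] at h4
          have : j = k := h4
          rw [this]
      refine ⟨.extra j, ⟨?_, ?_⟩, ?_⟩
      · rintro _ ⟨m, rfl⟩
        rw [h2]
      · intro c hc
        have := hc ⟨0, rfl⟩
        rwa [hj] at this
      · have hcl : IsClosed (range (rankOne (f j) (v j))) := by
          have : range (rankOne (f j) (v j)) = {x | rankOne (f j) (v j) x = x} := by
            ext x
            constructor
            · rintro ⟨y, rfl⟩
              simp [hfv]
            · intro hx
              exact ⟨x, hx⟩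
          rw [this]
          exact isClosed_eq (by fun_prop) continuous_id
        simp only [h2]
        rw [iUnion_const]
        exact hcl.closure_eq.symm
  · intro x
    obtain ⟨s, hs⟩ := hP.cover x
    exact ⟨.base s, hs⟩

theorem ext_induced {P : Γ → X →L[𝕜] X} (hP : IsProjectionalSkeleton P)
    (f : J → StrongDual 𝕜 X) (v : J → X) 
    (hf : ∀ j, f j ∈ inducedSubspace P) :
    inducedSubspace (extSkel P f v) = inducedSubspace P := by
  apply Subset.antisymm
  · rintro _ ⟨a, g, rfl⟩
    cases a with
    | base s => exact ⟨s, g, rfl⟩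
    | extra j =>
      have h1 : g.comp (extSkel P f v (.extra j)) = g (v j) • f j := by
        ext x
        simp [extSkel, mul_comm]
      rw [h1]
      exact (inducedSubmodule hP).smul_mem _ (hf j)
  · rintro _ ⟨s, g, rfl⟩
    exact ⟨.base s, g, rfl⟩

end Order

/-- For some choice `s(·)` the recipe applied to the skeleton `P` never gives a projectional
generator. -/
def RecipeFails {𝕜 X Γ : Type*} [RCLike 𝕜] [NormedAddCommGroup X]
    [NormedSpace 𝕜 X] (P : Γ → X →L[𝕜] X) : Prop :=
  ∃ s : StrongDual 𝕜 X → Γ, (∃ Φ, IsRecipe P s Φ) ∧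
    ∀ Φ, IsRecipe P s Φ → ¬ GeneratorCondition (inducedSubspace P) Φ

theorem exists_recipe {𝕜 X Γ : Type*} [RCLike 𝕜] [NormedAddCommGroup X]
    [NormedSpace 𝕜 X] [PartialOrder Γ] {P : Γ → X →L[𝕜] X}
    (hP : IsProjectionalSkeleton P) (s : StrongDual 𝕜 X → Γ)
    (hs : ∀ f ∈ inducedSubspace P, f.comp (P (s f)) = f) : ∃ Φ, IsRecipe P s Φ := by
  choose t ht1 ht2 ht3 using fun a => (hP.separable a).exists_countable_dense_subset
  exact ⟨fun f => t (s f), fun f hf => ⟨hs f hf, ht2 _, ht1 _, ht3 _⟩⟩

/-- The general construction: if `A` is a subset of the induced subspace whose norm closure is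
linear, `y` is a nonzero functional in its weak-star closure and every `a ∈ A` takes the value `1`
at some `v a` in the kernel of `y`, then the skeleton can be enlarged such that the recipe fails. -/
theorem main_ext {Γ : Type v} [PartialOrder Γ] {P : Γ → X →L[𝕜] X}
    (hP : IsProjectionalSkeleton P) {A : Set (StrongDual 𝕜 X)} (hA : A ⊆ inducedSubspace P)
    (hAcl : ∃ L : Submodule 𝕜 (StrongDual 𝕜 X), closure A = (L : Set (StrongDual 𝕜 X)))
    {y : StrongDual 𝕜 X} (hy0 : y ≠ 0) (hy : y ∈ weakStarClosure A)
    (v : StrongDual 𝕜 X → X) (hv1 : ∀ a ∈ A, a (v a) = 1) (hv2 : ∀ a ∈ A, y (v a) = 0) :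
    RecipeFails (extSkel P (fun j : {f // f ∈ A} => j.1) (fun j => v j.1)) := by
  classical
  have hf : ∀ j : {f // f ∈ A}, j.1 ∈ inducedSubspace P := fun j => hA j.2
  have hfv : ∀ j : {f // f ∈ A}, j.1 (v j.1) = 1 := fun j => hv1 _ j.2
  let _ := extOrder hP (fun j : {f // f ∈ A} => j.1) (fun j => v j.1)
  have hS := ext_isSkeleton hP (fun j : {f // f ∈ A} => j.1) (fun j => v j.1) hfv hf
  have hD := ext_induced hP (fun j : {f // f ∈ A} => j.1) (fun j => v j.1) hf
  have hch : ∀ f : StrongDual 𝕜 X, ∃ s, f ∈ inducedSubspace P → f.comp (P s) = f := by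
    intro f
    by_cases h : f ∈ inducedSubspace P
    · obtain ⟨s, hs⟩ := hP.mem_induced.1 h
      exact ⟨s, fun _ => hs⟩
    · obtain ⟨s, _⟩ := hP.cover 0
      exact ⟨s, fun h' => absurd h' h⟩
  choose r hr using hch
  let s : StrongDual 𝕜 X → ExtIndex Γ {f // f ∈ A} := fun f =>
    if h : f ∈ A then .extra ⟨f, h⟩ else .base (r f)
  have hs : ∀ f ∈ inducedSubspace (extSkel P (fun j : {f // f ∈ A} => j.1) (fun j => v j.1)),
      f.comp (extSkel P (fun j : {f // f ∈ A} => j.1) (fun j => v j.1) (s f)) = f := by
    intro f hfD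
    rw [hD] at hfD
    by_cases h : f ∈ A
    · simp only [s, h, dif_pos]
      ext x
      simp [extSkel, hv1 f h]
    · simp only [s, h, dif_neg, not_false_iff]
      exact hr f hfD
  refine ⟨s, exists_recipe hS s hs, fun Φ hΦ hG => hy0 ?_⟩
  rw [hD] at hG
  refine hG A hA hAcl y hy ?_
  intro a ha x hx
  have h1 := (hΦ a (by rw [hD]; exact hA ha)).2.2.1 hx
  obtain ⟨z, rfl⟩ := h1
  simp only [s, ha, dif_pos, extSkel, rankOne_apply, map_smul, hv2 a ha, smul_zero]

/-- Every skeleton contains a uniformly bounded one with the same induced subspace. -/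
theorem exists_bounded {Γ : Type v} [PartialOrder Γ] {P : Γ → X →L[𝕜] X}
    (hP : IsProjectionalSkeleton P) :
    ∃ M : ℝ, IsProjectionalSkeleton (fun s : {s : Γ // ‖P s‖ ≤ M} => P s.1) ∧
      inducedSubspace (fun s : {s : Γ // ‖P s‖ ≤ M} => P s.1) = inducedSubspace P := by
  have h1 : ∃ n : ℕ, ∀ s, ∃ t, s ≤ t ∧ ‖P t‖ ≤ n := by
    by_contra hcon
    push Not at hcon
    choose a ha using hcon
    -- an increasing sequence above all `a n`
    choose up hup1 hup2 using hP.directed
    let b : ℕ → Γ := fun n => Nat.rec (a 0) (fun k c => up c (a (k + 1))) n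
    have hb : Monotone b := monotone_nat_of_le_succ fun n => hup1 _ _
    have hab : ∀ n, a n ≤ b n := by
      intro n
      cases n with
      | zero => exact le_refl _
      | succ k => exact hup2 _ _
    obtain ⟨t, ht, -⟩ := hP.sup b hb
    obtain ⟨n, hn⟩ := exists_nat_ge ‖P t‖
    exact absurd hn (not_le.2 (ha n t ((hab n).trans (ht.1 ⟨n, rfl⟩))))
  obtain ⟨n, hn⟩ := h1
  have hfin : ∀ s, ∃ t : {s : Γ // ‖P s‖ ≤ (n : ℝ)}, s ≤ t.1 := fun s => by
    obtain ⟨t, h1, h2⟩ := hn s
    exact ⟨⟨t, h2⟩, h1⟩
  refine ⟨n, ⟨?_, ?_, ?_, ?_, ?_, ?_, ?_⟩, ?_⟩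
  · intro s t
    obtain ⟨r, hr1, hr2⟩ := hP.directed s.1 t.1
    obtain ⟨q, hq⟩ := hfin r
    exact ⟨q, hr1.trans hq, hr2.trans hq⟩
  · intro s x
    exact hP.proj s.1 x
  · intro s
    exact hP.separable s.1
  · intro s t hst x
    exact hP.left_comp s.1 t.1 hst x
  · intro s t hst x
    exact hP.right_comp s.1 t.1 hst x
  · intro u hu
    obtain ⟨t, ht1, ht2⟩ := hP.sup (fun n => (u n).1) (fun a b hab => hu hab)
    have hlim : ∀ x, Filter.Tendsto (fun m => P (u m).1 x) Filter.atTop (𝓝 (P t x)) := by
      intro x
      have hle : ∀ m, (u m).1 ≤ t := fun m => ht1.1 ⟨m, rfl⟩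
      rw [Metric.tendsto_atTop]
      intro ε hε
      have hx : P t x ∈ closure (⋃ m, range (P (u m).1)) := by
        rw [← ht2]; exact ⟨x, rfl⟩
      obtain ⟨z, hz, hzd⟩ := Metric.mem_closure_iff.1 hx (ε / ((n : ℝ) + 1)) (by positivity)
      obtain ⟨k, hk⟩ := mem_iUnion.1 hz
      refine ⟨k, fun m hm => ?_⟩
      have hkz : P (u m).1 z = z := by
        obtain ⟨w, rfl⟩ := hk
        exact hP.right_comp _ _ (hu hm) w
      have h3 : P (u m).1 x - P t x = P (u m).1 (P t x - z) - (P t x - z) := by
        rw [map_sub, hP.left_comp _ _ (hle m), hkz]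
        abel
      rw [dist_eq_norm, h3]
      calc ‖P (u m).1 (P t x - z) - (P t x - z)‖
          ≤ ‖P (u m).1 (P t x - z)‖ + ‖P t x - z‖ := norm_sub_le _ _
        _ ≤ n * ‖P t x - z‖ + ‖P t x - z‖ := by
            gcongr
            exact (ContinuousLinearMap.le_opNorm _ _).trans (by gcongr; exact (u m).2)
        _ = (n + 1) * ‖P t x - z‖ := by ring
        _ < (n + 1) * (ε / ((n : ℝ) + 1)) := by
            rw [← dist_eq_norm]
            gcongr
        _ = ε := by field_simp
    have htn : ‖P t‖ ≤ n := by
      refine ContinuousLinearMap.opNorm_le_bound _ (by positivity) fun x => ?_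
      refine le_of_tendsto (hlim x).norm (Filter.Eventually.of_forall fun m => ?_)
      exact (ContinuousLinearMap.le_opNorm _ _).trans (by gcongr; exact (u m).2)
    refine ⟨⟨t, htn⟩, ⟨?_, ?_⟩, ht2⟩
    · rintro _ ⟨m, rfl⟩
      exact ht1.1 ⟨m, rfl⟩
    · intro c hc
      refine ht1.2 ?_
      rintro _ ⟨m, rfl⟩
      exact hc ⟨m, rfl⟩
  · intro x
    obtain ⟨s, hs⟩ := hP.exists_fix x
    obtain ⟨t, ht⟩ := hfin s
    exact ⟨t, x, hP.fix_mono hs ht⟩
  · apply Subset.antisymm
    · rintro _ ⟨s, g, rfl⟩
      exact ⟨s.1, g, rfl⟩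
    · intro f hf
      obtain ⟨s, hs⟩ := hP.mem_induced.1 hf
      obtain ⟨t, ht⟩ := hfin s
      exact ⟨t, f, (hP.comp_mono hs ht).symm⟩

end Pool.Agent.Lib.MP_2163b8_an
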