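import Pool.Agent.Lib.MP_2163b8_an.Extend

open Set Topology

namespace Pool.Agent.Lib.MP_2163b8_an

universe u v w

variable {𝕜 : Type w} {X : Type u} {Γ : Type v} [RCLike 𝕜] [NormedAddCommGroup X]
  [NormedSpace 𝕜 X] [PartialOrder Γ] {P : Γ → X →L[𝕜] X}

/-- The norm closure is contained in the weak-star closure. -/
theorem weakStarClosure_closure (A : Set (StrongDual 𝕜 X)) :
    weakStarClosure (closure A) ⊆ weakStarClosure A := by
  intro f hf
  refine mem_weakStarClosure_of fun S ε hε => ?_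
  obtain ⟨g, hg, hgS⟩ := exists_of_mem_weakStarClosure hf S (half_pos hε)
  have hb : ∃ C : ℝ, 0 < C ∧ ∀ x ∈ S, ‖x‖ ≤ C := by
    refine ⟨1 + ∑ x ∈ S, ‖x‖, by positivity, fun x hx => ?_⟩
    have := Finset.single_le_sum (f := fun x => ‖x‖) (fun y _ => norm_nonneg y) hx
    linarith
  obtain ⟨C, hC, hCx⟩ := hb
  obtain ⟨a, ha, hga⟩ := Metric.mem_closure_iff.1 hg (ε / 2 / C) (by positivity)
  refine ⟨a, ha, fun x hx => ?_⟩
  have h1 : ‖(g - a) x‖ ≤ ε / 2 := by
    calc ‖(g - a) x‖ ≤ ‖g - a‖ * ‖x‖ := (g - a).le_opNorm x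
      _ ≤ (ε / 2 / C) * C := by
          rw [← dist_eq_norm]
          gcongr
          exact hCx x hx
      _ = ε / 2 := by field_simp
  have h2 := hgS x hx
  calc ‖a x - f x‖ = ‖(g x - f x) - (g - a) x‖ := by
        congr 1
        rw [sub_apply]
        ring
    _ ≤ ‖g x - f x‖ + ‖(g - a) x‖ := norm_sub_le _ _
    _ < ε := by linarith

theorem weakStarClosure_mono {A B : Set (StrongDual 𝕜 X)} (h : A ⊆ B) :
    weakStarClosure A ⊆ weakStarClosure B := by
  intro f hf
  refine mem_weakStarClosure_of fun S ε hε => ?_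
  obtain ⟨g, hg, hgS⟩ := exists_of_mem_weakStarClosure hf S hε
  exact ⟨g, h hg, hgS⟩

theorem subset_weakStarClosure (A : Set (StrongDual 𝕜 X)) : A ⊆ weakStarClosure A := by
  intro f hf
  refine mem_weakStarClosure_of fun S ε hε => ?_
  exact ⟨f, hf, fun x _ => by simp [hε]⟩

/-- The induced subspace is norm closed. -/
theorem induced_isClosed (hP : IsProjectionalSkeleton P) : IsClosed (inducedSubspace P) := by
  refine isClosed_of_closure_subset fun f hf => ?_
  obtain ⟨x, hx, hlim⟩ := mem_closure_iff_seq_limit.1 hf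
  choose a ha using fun n => hP.mem_induced.1 (hx n)
  choose up hup1 hup2 using hP.directed
  let b : ℕ → Γ := fun n => Nat.rec (a 0) (fun k c => up c (a (k + 1))) n
  have hb : Monotone b := monotone_nat_of_le_succ fun n => hup1 _ _
  have hab : ∀ n, a n ≤ b n := by
    intro n
    cases n with
    | zero => exact le_refl _
    | succ k => exact hup2 _ _
  obtain ⟨t, ht, -⟩ := hP.sup b hb
  have h1 : ∀ n, (x n).comp (P t) = x n := fun n =>
    hP.comp_mono (ha n) ((hab n).trans (ht.1 ⟨n, rfl⟩))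
  refine hP.mem_induced.2 ⟨t, ?_⟩
  have h2 : Filter.Tendsto (fun n => (x n).comp (P t)) Filter.atTop (𝓝 (f.comp (P t))) := by
    have hc : Continuous fun g : StrongDual 𝕜 X => g.comp (P t) := by fun_prop
    exact (hc.tendsto f).comp hlim
  simp only [h1] at h2
  exact tendsto_nhds_unique h2 hlim

/-- The induced subspace is weak-star dense. -/
theorem weakStarClosure_induced (hP : IsProjectionalSkeleton P) (y : StrongDual 𝕜 X) :
    y ∈ weakStarClosure (inducedSubspace P) := by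
  refine mem_weakStarClosure_of fun S ε hε => ?_
  obtain ⟨s, hs⟩ := hP.exists_fix_finset S
  refine ⟨y.comp (P s), ⟨s, y, rfl⟩, fun x hx => ?_⟩
  rw [ContinuousLinearMap.comp_apply, hs x hx, sub_self, norm_zero]
  exact hε

/-- The kernel of a functional on the dual which is not an evaluation is weak-star dense. -/
theorem weakStarClosure_ker {F : StrongDual 𝕜 (StrongDual 𝕜 X)}
    (hF : F ∉ range (NormedSpace.inclusionInDoubleDual 𝕜 X)) (y : StrongDual 𝕜 X) :
    y ∈ weakStarClosure {f : StrongDual 𝕜 X | F f = 0} := by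
  refine mem_weakStarClosure_of fun S ε hε => ?_
  let L : S → (StrongDual 𝕜 X →ₗ[𝕜] 𝕜) := fun x =>
    (NormedSpace.inclusionInDoubleDual 𝕜 X x.1).toLinearMap
  have h1 : ¬ (⨅ i, LinearMap.ker (L i) ≤ LinearMap.ker F.toLinearMap) := by
    intro h
    have h2 := mem_span_of_iInf_ker_le_ker h
    rw [Submodule.mem_span_range_iff_exists_fun] at h2
    obtain ⟨c, hc⟩ := h2
    apply hF
    refine ⟨∑ i, c i • (i.1 : X), ?_⟩
    ext f
    have h3 := LinearMap.congr_fun hc f
    simp only [L, LinearMap.sum_apply, LinearMap.smul_apply,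
      ContinuousLinearMap.coe_coe, NormedSpace.dual_def, smul_eq_mul] at h3
    rw [NormedSpace.dual_def, map_sum]
    simp only [map_smul, smul_eq_mul]
    exact h3
  obtain ⟨z, hz, hFz⟩ := Set.not_subset.1 h1
  have hFz' : F z ≠ 0 := fun h => hFz h
  have hz' : ∀ x ∈ S, z x = 0 := by
    intro x hx
    exact (Submodule.mem_iInf _).1 hz ⟨x, hx⟩
  refine ⟨y - (F y / F z) • z, ?_, fun x hx => ?_⟩
  · simp [hFz']
  · simp [hz' x hx, hε]

/-- Bounded one-dimensional projections in the kernel of `y`. -/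
theorem exists_vectors {E : Submodule 𝕜 (StrongDual 𝕜 X)}
    (hE : IsClosed (E : Set (StrongDual 𝕜 X))) {y : StrongDual 𝕜 X} (hy : y ∉ E) :
    ∃ K : ℝ, ∀ f ∈ E, f ≠ 0 → ∃ v : X, f v = 1 ∧ y v = 0 ∧ ‖f‖ * ‖v‖ ≤ K := by
  have hy0 : y ≠ 0 := fun h => hy (h ▸ E.zero_mem)
  obtain ⟨u, hu⟩ : ∃ u, y u ≠ 0 := by
    by_contra h
    push Not at h
    exact hy0 (ContinuousLinearMap.ext h)
  obtain ⟨u, hu⟩ : ∃ u, y u = 1 := ⟨(y u)⁻¹ • u, by simp [hu]⟩
  obtain ⟨d, hd, hball⟩ := Metric.isOpen_iff.1 hE.isOpen_compl y hy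
  have hdist : ∀ f ∈ E, d ≤ ‖f - y‖ := by
    intro f hf
    by_contra hcon
    push Not at hcon
    rw [← dist_eq_norm] at hcon
    exact hball (Metric.mem_ball.2 hcon) hf
  have hny : 0 < ‖y‖ := norm_pos_iff.2 hy0
  -- lower bound for `‖f - f u • y‖`
  have hlow : ∀ f ∈ E, ‖f‖ * (d / (d + ‖y‖)) ≤ ‖f - f u • y‖ := by
    intro f hf
    by_cases h : ‖f‖ / (d + ‖y‖) ≤ ‖f u‖
    · by_cases h0 : f u = 0
      · have h00 : f - f u • y = f := by
          ext x
          simp [h0]
        rw [h00]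
        have : d / (d + ‖y‖) ≤ 1 := by
          rw [div_le_one (by positivity)]
          linarith
        nlinarith [norm_nonneg f]
      · have h1 : f - f u • y = f u • ((f u)⁻¹ • f - y) := by
          rw [smul_sub, smul_smul, mul_inv_cancel₀ h0, one_smul]
        rw [h1, norm_smul]
        have h2 := hdist _ (E.smul_mem (f u)⁻¹ hf)
        calc ‖f‖ * (d / (d + ‖y‖)) = (‖f‖ / (d + ‖y‖)) * d := by ring
          _ ≤ ‖f u‖ * ‖(f u)⁻¹ • f - y‖ := by gcongr
    · push Not at h
      have h1 : ‖f‖ - ‖f u‖ * ‖y‖ ≤ ‖f - f u • y‖ := by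
        rw [← norm_smul]
        exact norm_sub_norm_le _ _
      have h2 : ‖f u‖ * ‖y‖ ≤ ‖f‖ / (d + ‖y‖) * ‖y‖ := by gcongr
      have h3 : ‖f‖ * (d / (d + ‖y‖)) = ‖f‖ - ‖f‖ / (d + ‖y‖) * ‖y‖ := by
        field_simp
        ring
      linarith
  refine ⟨(1 + ‖y‖ * ‖u‖) * (2 * ((d + ‖y‖) / d)), fun f hf hf0 => ?_⟩
  have hnf : 0 < ‖f‖ := norm_pos_iff.2 hf0
  set g := f - f u • y with hg
  have hgpos : 0 < ‖g‖ := lt_of_lt_of_le (by positivity) (hlow f hf)
  obtain ⟨w, hw1, hw2⟩ := g.exists_lt_apply_of_lt_opNorm (half_lt_self hgpos)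
  have hfw : f (w - y w • u) = g w := by
    simp only [hg, map_sub, map_smul, smul_eq_mul, sub_apply,
      smul_apply]
    ring
  have hgw : g w ≠ 0 := by
    intro h
    rw [h, norm_zero] at hw2
    linarith
  refine ⟨(g w)⁻¹ • (w - y w • u), ?_, ?_, ?_⟩
  · rw [map_smul, hfw, smul_eq_mul, inv_mul_cancel₀ hgw]
  · rw [map_smul, map_sub, map_smul, hu]
    simp
  · rw [norm_smul, norm_inv]
    have h1 : ‖w - y w • u‖ ≤ 1 + ‖y‖ * ‖u‖ := by
      calc ‖w - y w • u‖ ≤ ‖w‖ + ‖y w • u‖ := norm_sub_le _ _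
        _ ≤ 1 + ‖y‖ * ‖u‖ := by
            rw [norm_smul]
            have : ‖y w‖ ≤ ‖y‖ * 1 := (y.le_opNorm w).trans (by gcongr)
            rw [mul_one] at this
            gcongr
    have h2 : ‖g w‖⁻¹ ≤ (‖g‖ / 2)⁻¹ := by
      apply inv_anti₀ (by positivity) hw2.le
    have h3 : (‖g‖ / 2)⁻¹ ≤ (‖f‖ * (d / (d + ‖y‖)) / 2)⁻¹ := by
      apply inv_anti₀ (by positivity)
      have := hlow f hf
      linarith
    calc ‖f‖ * (‖g w‖⁻¹ * ‖w - y w • u‖)
        ≤ ‖f‖ * ((‖f‖ * (d / (d + ‖y‖)) / 2)⁻¹ * (1 + ‖y‖ * ‖u‖)) := by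
          apply mul_le_mul_of_nonneg_left _ hnf.le
          exact mul_le_mul (h2.trans h3) h1 (norm_nonneg _) (by positivity)
      _ = (1 + ‖y‖ * ‖u‖) * (2 * ((d + ‖y‖) / d)) := by
          field_simp

/-- In a non-reflexive space there are a norm closed subspace `E` of the induced subspace and
a functional in the weak-star closure of `E` which is not in `E`. -/
theorem exists_subspace (hP : IsProjectionalSkeleton P)
    (hX : ¬ Function.Surjective (NormedSpace.inclusionInDoubleDual 𝕜 X)) :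
    ∃ E : Submodule 𝕜 (StrongDual 𝕜 X), IsClosed (E : Set (StrongDual 𝕜 X)) ∧
      (E : Set (StrongDual 𝕜 X)) ⊆ inducedSubspace P ∧
      ∃ y, y ∉ E ∧ y ∈ weakStarClosure (E : Set (StrongDual 𝕜 X)) := by
  by_cases h : ∃ y, y ∉ inducedSubspace P
  · obtain ⟨y, hy⟩ := h
    exact ⟨inducedSubmodule hP, induced_isClosed hP, Subset.rfl, y, hy,
      weakStarClosure_induced hP y⟩
  · push Not at h
    rw [Function.Surjective] at hX
    push Not at hX
    obtain ⟨F, hF⟩ := hX
    have hF' : F ∉ range (NormedSpace.inclusionInDoubleDual 𝕜 X) := by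
      rintro ⟨x, hx⟩
      exact hF x hx
    have hF0 : F ≠ 0 := by
      rintro rfl
      exact hF' ⟨0, by simp⟩
    obtain ⟨y, hy⟩ : ∃ y, F y ≠ 0 := by
      by_contra h'
      push Not at h'
      exact hF0 (ContinuousLinearMap.ext h')
    refine ⟨LinearMap.ker F.toLinearMap, F.isClosed_ker, fun f _ => h f, y, hy, ?_⟩
    exact weakStarClosure_ker hF' y

/-- Main theorem for non-reflexive spaces. -/
theorem nonreflexive (hP : IsProjectionalSkeleton P)
    (hX : ¬ Function.Surjective (NormedSpace.inclusionInDoubleDual 𝕜 X)) :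
    ∃ (Γ' : Type (max u v w)) (_ : PartialOrder Γ') (P' : Γ' → X →L[𝕜] X),
      IsProjectionalSkeleton P' ∧ inducedSubspace P' = inducedSubspace P ∧
      (∃ M : ℝ, ∀ s, ‖P' s‖ ≤ M) ∧ RecipeFails P' := by
  obtain ⟨M, hQ, hD⟩ := exists_bounded hP
  obtain ⟨E, hEcl, hED, y, hyE, hyc⟩ := exists_subspace hQ hX
  obtain ⟨K, hK⟩ := exists_vectors hEcl hyE
  have hy0 : y ≠ 0 := fun h => hyE (h ▸ E.zero_mem)
  -- a nonzero element of `E`
  obtain ⟨e, heE, he0⟩ : ∃ e ∈ E, e ≠ 0 := by
    by_contra hcon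
    push Not at hcon
    apply hy0
    ext x
    refine eq_zero_of_mem_weakStarClosure hyc fun a ha => ?_
    rw [hcon a ha]
    rfl
  let A : Set (StrongDual 𝕜 X) := {f | f ∈ E ∧ f ≠ 0}
  have hAcl : closure A = (E : Set (StrongDual 𝕜 X)) := by
    apply Subset.antisymm
    · exact closure_minimal (fun f hf => hf.1) hEcl
    · intro f hf
      by_cases h0 : f = 0
      · subst h0
        refine mem_closure_of_tendsto (f := fun n : ℕ => ((1 : 𝕜) / ((n : 𝕜) + 1)) • e)
          (b := Filter.atTop) ?_ ?_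
        · have h1 : Filter.Tendsto (fun n : ℕ => ((1 : 𝕜) / ((n : 𝕜) + 1))) Filter.atTop
              (𝓝 0) := tendsto_one_div_add_atTop_nhds_zero_nat
          have := h1.smul_const e
          have h00 : (0 : 𝕜) • e = 0 := by ext x; simp
          rwa [h00] at this
        · refine Filter.Eventually.of_forall fun n => ⟨E.smul_mem _ heE, ?_⟩
          have h2 : ((n : 𝕜) + 1) ≠ 0 := Nat.cast_add_one_ne_zero n
          intro h3
          apply he0
          ext x
          have h4 := DFunLike.congr_fun h3 x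
          simpa [h2] using h4
      · exact subset_closure ⟨hf, h0⟩
  choose! v hv1 hv2 hv3 using hK
  have hyA : y ∈ weakStarClosure A := by
    apply weakStarClosure_closure
    rw [hAcl]
    exact hyc
  have hAD : A ⊆ inducedSubspace (fun s : {s : Γ // ‖P s‖ ≤ M} => P s.1) :=
    fun f hf => hED hf.1
  have hfail := main_ext hQ hAD ⟨E, hAcl⟩ hy0 hyA v (fun a ha => hv1 a ha.1 ha.2)
    (fun a ha => hv2 a ha.1 ha.2)
  refine ⟨_, extOrder hQ (fun j : {f // f ∈ A} => j.1) (fun j => v j.1), _,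
    ext_isSkeleton hQ _ _ (fun j => hv1 _ j.2.1 j.2.2) (fun j => hAD j.2), ?_, ⟨max M K, ?_⟩, hfail⟩
  · rw [ext_induced hQ _ _ (fun j => hAD j.2), hD]
  · intro s
    cases s with
    | base s => exact s.2.trans (le_max_left _ _)
    | extra j =>
      refine (ContinuousLinearMap.norm_smulRight_apply _ _).le.trans ?_
      exact (hv3 _ j.2.1 j.2.2).trans (le_max_right _ _)

/-- Main theorem for spaces of dimension at least two. -/
theorem rank_two (hP : IsProjectionalSkeleton P) {v w : X}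
    (hvw : LinearIndependent 𝕜 ![v, w]) :
    ∃ (Γ' : Type (max u v w)) (_ : PartialOrder Γ') (P' : Γ' → X →L[𝕜] X),
      IsProjectionalSkeleton P' ∧ inducedSubspace P' = inducedSubspace P ∧ RecipeFails P' := by
  have hv0 : v ≠ 0 := hvw.ne_zero 0
  obtain ⟨s, hs⟩ := hP.exists_fix v
  obtain ⟨t, ht⟩ := hP.exists_fix w
  obtain ⟨r, hsr, htr⟩ := hP.directed s t
  have hrv : P r v = v := hP.fix_mono hs hsr
  have hrw : P r w = w := hP.fix_mono ht htr
  -- functionals
  obtain ⟨x₀, hx₀⟩ : ∃ f : StrongDual 𝕜 X, f v = 1 := by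
    obtain ⟨f, hf⟩ := SeparatingDual.exists_ne_zero (R := 𝕜) hv0
    exact ⟨(f v)⁻¹ • f, by simp [hf]⟩
  have hw' : w - x₀ w • v ≠ 0 := by
    intro h
    rw [LinearIndependent.pair_iff] at hvw
    have := hvw (- x₀ w) 1 (by rw [one_smul, neg_smul, ← h]; abel)
    exact one_ne_zero this.2
  obtain ⟨g, hg⟩ := SeparatingDual.exists_ne_zero (R := 𝕜) hw'
  let y : StrongDual 𝕜 X := (g - g v • x₀).comp (P r)
  have hyv : y v = 0 := by simp [y, hrv, hx₀]
  have hyw : y w ≠ 0 := by
    simp only [y, ContinuousLinearMap.comp_apply, hrw, sub_apply,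
      smul_apply, smul_eq_mul]
    intro h
    apply hg
    rw [map_sub, map_smul, smul_eq_mul, ← h]
    ring
  have hy0 : y ≠ 0 := by
    intro h
    rw [h] at hyw
    exact hyw rfl
  have hyD : y ∈ inducedSubspace P := ⟨r, _, rfl⟩
  let z : StrongDual 𝕜 X := x₀.comp (P r)
  have hzv : z v = 1 := by simp [z, hrv, hx₀]
  have hzD : z ∈ inducedSubspace P := ⟨r, _, rfl⟩
  let A : Set (StrongDual 𝕜 X) := {f | f ∈ inducedSubspace P ∧ f v ≠ 0}
  have hAD : A ⊆ inducedSubspace P := fun f hf => hf.1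
  have hcl : inducedSubspace P ⊆ closure A := by
    intro f hf
    by_cases h0 : f v = 0
    · refine mem_closure_of_tendsto (f := fun n : ℕ => f + ((1 : 𝕜) / ((n : 𝕜) + 1)) • z)
          (b := Filter.atTop) ?_ ?_
      · have h1 : Filter.Tendsto (fun n : ℕ => ((1 : 𝕜) / ((n : 𝕜) + 1))) Filter.atTop
            (𝓝 0) := tendsto_one_div_add_atTop_nhds_zero_nat
        have := (h1.smul_const z).const_add f
        have h00 : f + (0 : 𝕜) • z = f := by ext x; simp
        rwa [h00] at this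
      · refine Filter.Eventually.of_forall fun n => ?_
        have h2 : ((n : 𝕜) + 1) ≠ 0 := Nat.cast_add_one_ne_zero n
        refine ⟨(inducedSubmodule hP).add_mem hf ((inducedSubmodule hP).smul_mem _ hzD), ?_⟩
        simp [h0, hzv, h2]
    · exact subset_closure ⟨hf, h0⟩
  have hAcl : closure A = (inducedSubmodule hP : Set (StrongDual 𝕜 X)) := by
    apply Subset.antisymm
    · exact closure_minimal hAD (induced_isClosed hP)
    · exact hcl
  have hyA : y ∈ weakStarClosure A :=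
    weakStarClosure_closure A (subset_weakStarClosure _ (hcl hyD))
  let V : StrongDual 𝕜 X → X := fun f => (f v)⁻¹ • v
  have hV1 : ∀ a ∈ A, a (V a) = 1 := by
    intro a ha
    simp [V, ha.2]
  have hV2 : ∀ a ∈ A, y (V a) = 0 := by
    intro a ha
    simp [V, hyv]
  have hfail := main_ext hP hAD ⟨_, hAcl⟩ hy0 hyA V hV1 hV2
  exact ⟨_, extOrder hP (fun j : {f // f ∈ A} => j.1) (fun j => V j.1), _,
    ext_isSkeleton hP _ _ (fun j => hV1 _ j.2) (fun j => hAD j.2),
    ext_induced hP _ _ (fun j => hAD j.2), hfail⟩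

/-- In reflexive spaces the recipe always works for uniformly bounded skeletons. -/
theorem reflexive (hP : IsProjectionalSkeleton P) {M : ℝ} (hM : ∀ s, ‖P s‖ ≤ M)
    (hX : Function.Surjective (NormedSpace.inclusionInDoubleDual 𝕜 X))
    {s : StrongDual 𝕜 X → Γ} {Φ : StrongDual 𝕜 X → Set X} (hΦ : IsRecipe P s Φ) :
    IsProjectionalGenerator (inducedSubspace P) Φ := by
  have hM0 : 0 ≤ M := by
    obtain ⟨s, _⟩ := hP.cover 0
    exact (norm_nonneg _).trans (hM s)
  refine ⟨⟨⟨inducedSubmodule hP, rfl⟩, (M + 1)⁻¹, by positivity, fun x => ?_⟩,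
    fun f hf => (hΦ f hf).2.1, ?_⟩
  · obtain ⟨r, hr⟩ := hP.exists_fix x
    obtain ⟨g, hg1, hg2⟩ := exists_dual_vector'' 𝕜 x
    have hbdd : BddAbove {r : ℝ | ∃ f ∈ inducedSubspace P, ‖f‖ ≤ 1 ∧ r = ‖f x‖} := by
      refine ⟨‖x‖, ?_⟩
      rintro _ ⟨f, -, hf1, rfl⟩
      exact (f.le_opNorm x).trans (by nlinarith [norm_nonneg x])
    refine le_csSup hbdd ⟨(((M + 1 : ℝ) : 𝕜)⁻¹ • g).comp (P r), ⟨r, _, rfl⟩, ?_, ?_⟩
    · refine (ContinuousLinearMap.opNorm_comp_le _ _).trans ?_
      rw [norm_smul, norm_inv, RCLike.norm_ofReal, abs_of_pos (by positivity)]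
      calc (M + 1)⁻¹ * ‖g‖ * ‖P r‖ ≤ (M + 1)⁻¹ * 1 * M := by
            gcongr
            exact hM r
        _ ≤ 1 := by
            rw [mul_one, inv_mul_le_iff₀ (by positivity)]
            linarith
    · rw [ContinuousLinearMap.comp_apply, hr, smul_apply, norm_smul, hg2,
        norm_inv, RCLike.norm_ofReal, RCLike.norm_ofReal, abs_of_pos (by positivity), abs_norm]
  · intro A hA hL y hy hyΦ
    obtain ⟨L, hL⟩ := hL
    have hLcl : IsClosed (L : Set (StrongDual 𝕜 X)) := by
      rw [← hL]; exact isClosed_closure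
    have hyL : y ∈ L := by
      by_contra hcon
      let _ : NormedSpace ℝ (StrongDual 𝕜 X) := NormedSpace.restrictScalars ℝ 𝕜 _
      have hconv : Convex ℝ (L : Set (StrongDual 𝕜 X)) := (L.restrictScalars ℝ).convex
      obtain ⟨G, u, hG1, hG2⟩ :=
        RCLike.geometric_hahn_banach_closed_point (𝕜 := 𝕜) hconv hLcl hcon
      have hu : 0 < u := by simpa using hG1 0 L.zero_mem
      have hGL : ∀ a ∈ L, G a = 0 := by
        intro a ha
        by_contra h0
        have h1 := hG1 (((((u + 1 : ℝ)) : 𝕜) / G a) • a) (L.smul_mem _ ha)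
        rw [map_smul, smul_eq_mul, div_mul_cancel₀ _ h0, RCLike.ofReal_re] at h1
        linarith
      obtain ⟨x, hx⟩ := hX G
      have h1 : y x = 0 := by
        refine eq_zero_of_mem_weakStarClosure hy fun a ha => ?_
        have haL : a ∈ L := by
          have : a ∈ (L : Set (StrongDual 𝕜 X)) := by rw [← hL]; exact subset_closure ha
          exact this
        have h3 := DFunLike.congr_fun hx a
        rw [NormedSpace.dual_def, hGL a haL] at h3
        exact h3
      have h3 := DFunLike.congr_fun hx y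
      rw [NormedSpace.dual_def, h1] at h3
      rw [← h3, map_zero] at hG2
      linarith
    have hycl : y ∈ closure A := by rw [hL]; exact hyL
    have hle : ∀ a ∈ A, ‖y‖ ≤ (1 + M) * ‖y - a‖ := by
      intro a ha
      obtain ⟨h1, -, -, h4⟩ := hΦ a (hA ha)
      have h5 : y.comp (P (s a)) = 0 := by
        ext x
        have h6 : P (s a) x ∈ closure (Φ a) := h4 ⟨x, rfl⟩
        have h7 : closure (Φ a) ⊆ {z | y z = 0} :=
          closure_minimal (fun z hz => hyΦ a ha z hz) (isClosed_eq y.continuous continuous_const)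
        exact h7 h6
      calc ‖y‖ = ‖(y - a) - (y - a).comp (P (s a))‖ := by
            congr 1
            rw [ContinuousLinearMap.sub_comp, h5, h1]
            abel
        _ ≤ ‖y - a‖ + ‖(y - a).comp (P (s a))‖ := norm_sub_le _ _
        _ ≤ ‖y - a‖ + ‖y - a‖ * M := by
            gcongr
            exact (ContinuousLinearMap.opNorm_comp_le _ _).trans (by gcongr; exact hM _)
        _ = (1 + M) * ‖y - a‖ := by ring
    by_contra hy0
    have hpos : 0 < ‖y‖ := norm_pos_iff.2 hy0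
    obtain ⟨a, ha, hd⟩ := Metric.mem_closure_iff.1 hycl (‖y‖ / (1 + M)) (by positivity)
    have h1 := hle a ha
    rw [dist_eq_norm] at hd
    rw [lt_div_iff₀ (by positivity)] at hd
    linarith

end Pool.Agent.Lib.MP_2163b8_an
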