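import Mathlib

open Set Topology

namespace Pool.Agent.Lib.MP_2163b8_an

/-- A projectional skeleton on the normed space `X`: a family `(P s)` of bounded linear projections
indexed by an up-directed partially ordered set. -/
structure IsProjectionalSkeleton {𝕜 X Γ : Type*} [RCLike 𝕜] [NormedAddCommGroup X]
    [NormedSpace 𝕜 X] [PartialOrder Γ] (P : Γ → X →L[𝕜] X) : Prop where
  directed : ∀ s t : Γ, ∃ r : Γ, s ≤ r ∧ t ≤ r
  proj : ∀ s x, P s (P s x) = P s x
  separable : ∀ s, TopologicalSpace.IsSeparable (range (P s))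
  left_comp : ∀ s t, s ≤ t → ∀ x, P s (P t x) = P s x
  right_comp : ∀ s t, s ≤ t → ∀ x, P t (P s x) = P s x
  sup : ∀ u : ℕ → Γ, Monotone u →
    ∃ t, IsLUB (range u) t ∧ range (P t) = closure (⋃ n, range (P (u n)))
  cover : ∀ x, ∃ s, x ∈ range (P s)

/-- The subspace `⋃ s, P_s^* X^*` of the dual induced by the family `(P s)`. -/
def inducedSubspace {𝕜 X Γ : Type*} [RCLike 𝕜] [NormedAddCommGroup X]
    [NormedSpace 𝕜 X] (P : Γ → X →L[𝕜] X) : Set (StrongDual 𝕜 X) :=
  {f | ∃ s, ∃ g : StrongDual 𝕜 X, f = g.comp (P s)}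

/-- The weak-star closure of a set of functionals. -/
def weakStarClosure {𝕜 X : Type*} [RCLike 𝕜] [NormedAddCommGroup X]
    [NormedSpace 𝕜 X] (A : Set (StrongDual 𝕜 X)) : Set (StrongDual 𝕜 X) :=
  {f | StrongDual.toWeakDual f ∈ closure (StrongDual.toWeakDual '' A)}

/-- The main condition in the definition of a projectional generator: for every `A ⊆ D` whose norm
closure is a linear subspace, the only functional in the weak-star closure of `A` which vanishes on
`⋃ a ∈ A, Φ a` is zero. -/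
def GeneratorCondition {𝕜 X : Type*} [RCLike 𝕜] [NormedAddCommGroup X]
    [NormedSpace 𝕜 X] (D : Set (StrongDual 𝕜 X)) (Φ : StrongDual 𝕜 X → Set X) : Prop :=
  ∀ A ⊆ D, (∃ L : Submodule 𝕜 (StrongDual 𝕜 X), closure A = (L : Set (StrongDual 𝕜 X))) →
    ∀ f ∈ weakStarClosure A, (∀ a ∈ A, ∀ x ∈ Φ a, f x = 0) → f = 0

/-- `D` is a norming linear subspace of the dual. -/
def IsNormingSubspace {𝕜 X : Type*} [RCLike 𝕜] [NormedAddCommGroup X]
    [NormedSpace 𝕜 X] (D : Set (StrongDual 𝕜 X)) : Prop :=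
  (∃ L : Submodule 𝕜 (StrongDual 𝕜 X), D = (L : Set (StrongDual 𝕜 X))) ∧
    ∃ c : ℝ, 0 < c ∧ ∀ x : X, c * ‖x‖ ≤ sSup {r : ℝ | ∃ f ∈ D, ‖f‖ ≤ 1 ∧ r = ‖f x‖}

/-- `(D, Φ)` is a projectional generator. -/
def IsProjectionalGenerator {𝕜 X : Type*} [RCLike 𝕜] [NormedAddCommGroup X]
    [NormedSpace 𝕜 X] (D : Set (StrongDual 𝕜 X)) (Φ : StrongDual 𝕜 X → Set X) : Prop :=
  IsNormingSubspace D ∧ (∀ f ∈ D, (Φ f).Countable) ∧ GeneratorCondition D Φ

/-- `Φ` is built by the recipe of Q2 from the skeleton `P` with the choice function `s`: for every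
`f` in the induced subspace, `P_{s(f)}^* f = f` and `Φ f` is a countable dense subset of the range
of `P_{s(f)}`. -/
def IsRecipe {𝕜 X Γ : Type*} [RCLike 𝕜] [NormedAddCommGroup X]
    [NormedSpace 𝕜 X] (P : Γ → X →L[𝕜] X) (s : StrongDual 𝕜 X → Γ)
    (Φ : StrongDual 𝕜 X → Set X) : Prop :=
  ∀ f ∈ inducedSubspace P, f.comp (P (s f)) = f ∧ (Φ f).Countable ∧
    Φ f ⊆ range (P (s f)) ∧ range (P (s f)) ⊆ closure (Φ f)

section Basic

variable {𝕜 X Γ : Type*} [RCLike 𝕜] [NormedAddCommGroup X] [NormedSpace 𝕜 X]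

theorem mem_weakStarClosure_of {A : Set (StrongDual 𝕜 X)} {f : StrongDual 𝕜 X}
    (h : ∀ S : Finset X, ∀ ε > 0, ∃ g ∈ A, ∀ x ∈ S, ‖g x - f x‖ < ε) :
    f ∈ weakStarClosure A := by
  classical
  choose g hgA hg using fun p : Finset X × ℕ => h p.1 (1 / ((p.2 : ℝ) + 1)) (by positivity)
  have ht : Filter.Tendsto (fun p => StrongDual.toWeakDual (g p)) Filter.atTop
      (𝓝 (StrongDual.toWeakDual f)) := by
    refine tendsto_iff_forall_eval_tendsto_topDualPairing.2 fun x => ?_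
    rw [Metric.tendsto_atTop]
    intro ε hε
    obtain ⟨n, hn⟩ := exists_nat_one_div_lt hε
    refine ⟨({x}, n), fun p hp => ?_⟩
    have h1 := hg p x (hp.1 (Finset.mem_singleton_self x))
    have h2 : (1 : ℝ) / ((p.2 : ℝ) + 1) ≤ 1 / ((n : ℝ) + 1) := by
      have : (n : ℝ) ≤ p.2 := by exact_mod_cast hp.2
      apply one_div_le_one_div_of_le (by positivity)
      linarith
    rw [dist_eq_norm]
    exact lt_of_lt_of_le (lt_of_lt_of_le h1 h2) hn.le
  have hm : ∀ p, StrongDual.toWeakDual (g p) ∈ closure (StrongDual.toWeakDual '' A) :=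
    fun p => subset_closure ⟨g p, hgA p, rfl⟩
  have := isClosed_closure.mem_of_tendsto ht (Filter.Eventually.of_forall hm)
  exact this

theorem exists_of_mem_weakStarClosure {A : Set (StrongDual 𝕜 X)} {f : StrongDual 𝕜 X}
    (hf : f ∈ weakStarClosure A) (S : Finset X) {ε : ℝ} (hε : 0 < ε) :
    ∃ g ∈ A, ∀ x ∈ S, ‖g x - f x‖ < ε := by
  have hU : IsOpen {g : WeakDual 𝕜 X | ∀ x ∈ S, ‖g x - f x‖ < ε} := by
    have h1 : {g : WeakDual 𝕜 X | ∀ x ∈ S, ‖g x - f x‖ < ε} =
        ⋂ x ∈ S, {g : WeakDual 𝕜 X | ‖g x - f x‖ < ε} := by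
      ext g
      simp
    rw [h1]
    refine isOpen_biInter_finset fun x _ => ?_
    have hc : Continuous (fun g : WeakDual 𝕜 X => g x) := WeakDual.eval_continuous x
    exact isOpen_lt ((hc.sub continuous_const).norm) continuous_const
  have h2 : ∀ o : Set (WeakDual 𝕜 X), IsOpen o → StrongDual.toWeakDual f ∈ o →
      (o ∩ StrongDual.toWeakDual '' A).Nonempty := fun o ho hfo =>
      (mem_closure_iff (X := WeakDual 𝕜 X)).1 hf o ho hfo
  obtain ⟨g, hg1, g', hg', rfl⟩ := h2 _ hU (by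
    intro x _
    simp [hε])
  exact ⟨g', hg', hg1⟩

theorem eq_zero_of_mem_weakStarClosure {A : Set (StrongDual 𝕜 X)} {f : StrongDual 𝕜 X}
    (hf : f ∈ weakStarClosure A) {x : X} (hx : ∀ a ∈ A, a x = 0) : f x = 0 := by
  have hc : Continuous (fun g : WeakDual 𝕜 X => g x) := WeakDual.eval_continuous x
  have hcl : IsClosed {g : WeakDual 𝕜 X | g x = 0} := isClosed_singleton.preimage hc
  have : closure (StrongDual.toWeakDual '' A) ⊆ {g : WeakDual 𝕜 X | g x = 0} := by
    apply closure_minimal _ hcl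
    rintro _ ⟨a, ha, rfl⟩
    exact hx a ha
  exact this hf

variable [PartialOrder Γ] {P : Γ → X →L[𝕜] X}

theorem IsProjectionalSkeleton.exists_fix (hP : IsProjectionalSkeleton P) (x : X) :
    ∃ s, P s x = x := by
  obtain ⟨s, y, rfl⟩ := hP.cover x
  exact ⟨s, hP.proj s y⟩

theorem IsProjectionalSkeleton.fix_mono (hP : IsProjectionalSkeleton P) {x : X} {s t : Γ}
    (hs : P s x = x) (hst : s ≤ t) : P t x = x := by
  rw [← hs]; exact hP.right_comp s t hst x

theorem IsProjectionalSkeleton.comp_mono (hP : IsProjectionalSkeleton P) {f : StrongDual 𝕜 X}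
    {s t : Γ} (hs : f.comp (P s) = f) (hst : s ≤ t) : f.comp (P t) = f := by
  ext x
  have h1 : f (P t x) = f.comp (P s) (P t x) := by rw [hs]
  rw [ContinuousLinearMap.comp_apply, h1, ContinuousLinearMap.comp_apply, hP.left_comp s t hst,
    ← ContinuousLinearMap.comp_apply, hs]

theorem IsProjectionalSkeleton.mem_induced (hP : IsProjectionalSkeleton P)
    {f : StrongDual 𝕜 X} : f ∈ inducedSubspace P ↔ ∃ s, f.comp (P s) = f := by
  constructor
  · rintro ⟨s, g, rfl⟩
    refine ⟨s, ?_⟩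
    ext x
    simp [hP.proj]
  · rintro ⟨s, hs⟩
    exact ⟨s, f, hs.symm⟩

theorem IsProjectionalSkeleton.exists_fix_finset (hP : IsProjectionalSkeleton P) (S : Finset X) :
    ∃ s, ∀ x ∈ S, P s x = x := by
  classical
  induction S using Finset.induction_on with
  | empty =>
    obtain ⟨s, _⟩ := hP.cover 0
    exact ⟨s, by simp⟩
  | insert a S _ ih =>
    obtain ⟨s, hs⟩ := ih
    obtain ⟨t, ht⟩ := hP.exists_fix a
    obtain ⟨r, hsr, htr⟩ := hP.directed s t
    refine ⟨r, fun x hx => ?_⟩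
    rcases Finset.mem_insert.1 hx with rfl | hx
    · exact hP.fix_mono ht htr
    · exact hP.fix_mono (hs x hx) hsr

/-- The induced subspace as a submodule. -/
def inducedSubmodule (hP : IsProjectionalSkeleton P) : Submodule 𝕜 (StrongDual 𝕜 X) where
  carrier := inducedSubspace P
  zero_mem' := by
    obtain ⟨s, _⟩ := hP.cover 0
    exact ⟨s, 0, by ext; simp⟩
  add_mem' := by
    intro f g hf hg
    obtain ⟨s, hs⟩ := hP.mem_induced.1 hf
    obtain ⟨t, ht⟩ := hP.mem_induced.1 hg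
    obtain ⟨r, hsr, htr⟩ := hP.directed s t
    refine hP.mem_induced.2 ⟨r, ?_⟩
    rw [ContinuousLinearMap.add_comp, hP.comp_mono hs hsr, hP.comp_mono ht htr]
  smul_mem' := by
    intro c f hf
    obtain ⟨s, hs⟩ := hP.mem_induced.1 hf
    refine hP.mem_induced.2 ⟨s, ?_⟩
    rw [ContinuousLinearMap.smul_comp, hs]

end Basic

end Pool.Agent.Lib.MP_2163b8_an
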